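import Mathlib
import Pool.Agent.Work.MP_ce2d68_st.Interface

set_option autoImplicit false

namespace Pool.Agent.Work.MP_ce2d68_st.helper20

open Pool.Agent.Work.MP_ce2d68_st
open Metric

/-- Riemann sums for Lipschitz functions on `[0, 2 pi]` -/
lemma riemann (g : ℝ → ℝ) (hg : Continuous g) (M : ℝ) (hM : ∀ x y, |g x - g y| ≤ M * |x - y|)
    (k : ℕ) (hk : 1 ≤ k) :
    |(k : ℝ) * ((2 * Real.pi)⁻¹ * ∫ x in (0 : ℝ)..(2 * Real.pi), g x)
      - ∑ j ∈ Finset.range k, g (2 * Real.pi * j / k)| ≤ 2 * Real.pi * M := by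
  have hk0 : (0 : ℝ) < k := by exact_mod_cast hk
  have hpi := Real.pi_pos
  have hM0 : 0 ≤ M := by
    have h := hM 0 1
    have h1 : |(0 : ℝ) - 1| = 1 := by norm_num
    rw [h1, mul_one] at h
    exact le_trans (abs_nonneg _) h
  set a : ℕ → ℝ := fun j => 2 * Real.pi * j / k with ha
  have hsum : ∑ j ∈ Finset.range k, ∫ x in (a j)..(a (j + 1)), g x
      = ∫ x in (0 : ℝ)..(2 * Real.pi), g x := by
    rw [intervalIntegral.sum_integral_adjacent_intervals fun j _ => hg.intervalIntegrable _ _]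
    have h0 : a 0 = 0 := by simp [ha]
    have h1 : a k = 2 * Real.pi := by simp only [ha]; field_simp
    rw [h0, h1]
  have hdiff : ∀ j : ℕ, a (j + 1) - a j = 2 * Real.pi / k := by
    intro j
    simp only [ha]
    push_cast
    ring
  have hterm : ∀ j ∈ Finset.range k,
      |(∫ x in (a j)..(a (j + 1)), g x) - (2 * Real.pi / k) * g (a j)|
        ≤ (2 * Real.pi / k) * (M * (2 * Real.pi / k)) := by
    intro j _
    have hd := hdiff j
    have hdpos : 0 < 2 * Real.pi / (k : ℝ) := by positivity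
    have hc : ∫ _x in (a j)..(a (j + 1)), g (a j) = (2 * Real.pi / k) * g (a j) := by
      rw [intervalIntegral.integral_const, hd, smul_eq_mul]
    rw [← hc, ← intervalIntegral.integral_sub (hg.intervalIntegrable _ _)
      (continuous_const.intervalIntegrable _ _)]
    have h := intervalIntegral.norm_integral_le_of_norm_le_const (a := a j) (b := a (j + 1))
      (f := fun x => g x - g (a j)) (C := M * (2 * Real.pi / k)) (by
        intro x hx
        rw [Set.uIoc_of_le (by linarith)] at hx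
        rw [Real.norm_eq_abs]
        refine le_trans (hM x (a j)) ?_
        refine mul_le_mul_of_nonneg_left ?_ hM0
        rw [abs_of_nonneg (by linarith [hx.1])]
        linarith [hx.2])
    rw [hd, abs_of_pos hdpos, Real.norm_eq_abs] at h
    linarith [h]
  have htot : |(∫ x in (0 : ℝ)..(2 * Real.pi), g x)
      - (2 * Real.pi / k) * ∑ j ∈ Finset.range k, g (a j)|
        ≤ k * ((2 * Real.pi / k) * (M * (2 * Real.pi / k))) := by
    rw [← hsum, Finset.mul_sum, ← Finset.sum_sub_distrib]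
    refine le_trans (Finset.abs_sum_le_sum_abs _ _) ?_
    refine le_trans (Finset.sum_le_sum hterm) ?_
    rw [Finset.sum_const, Finset.card_range, nsmul_eq_mul]
  have hfin : (k : ℝ) * ((2 * Real.pi)⁻¹ * ∫ x in (0 : ℝ)..(2 * Real.pi), g x)
      - ∑ j ∈ Finset.range k, g (2 * Real.pi * j / k)
      = (k / (2 * Real.pi)) * ((∫ x in (0 : ℝ)..(2 * Real.pi), g x)
      - (2 * Real.pi / k) * ∑ j ∈ Finset.range k, g (a j)) := by
    simp only [ha]
    field_simp
  rw [hfin, abs_mul, abs_of_pos (by positivity : 0 < (k : ℝ) / (2 * Real.pi))]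
  refine le_trans (mul_le_mul_of_nonneg_left htot (by positivity)) (le_of_eq ?_)
  field_simp

/-- Riemann sums for circle averages -/
lemma riemann_ca (g : ℂ → ℝ) (M : ℝ)
    (hM : ∀ x y : ℝ, |g (circleMap 0 1 x) - g (circleMap 0 1 y)| ≤ M * |x - y|)
    (k : ℕ) (hk : 1 ≤ k) :
    |(k : ℝ) * ca g
      - ∑ j ∈ Finset.range k, g (Complex.exp (2 * Real.pi * Complex.I * j / k))|
        ≤ 2 * Real.pi * M := by
  have hM0 : 0 ≤ M := by
    have h := hM 0 1
    have h1 : |(0 : ℝ) - 1| = 1 := by norm_num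
    rw [h1, mul_one] at h
    exact le_trans (abs_nonneg _) h
  have hcont : Continuous fun x : ℝ => g (circleMap 0 1 x) := by
    have : LipschitzWith (Real.toNNReal M) fun x : ℝ => g (circleMap 0 1 x) := by
      refine LipschitzWith.of_dist_le_mul fun x y => ?_
      rw [Real.dist_eq, Real.dist_eq, Real.coe_toNNReal M hM0]
      exact hM x y
    exact this.continuous
  have h := riemann (fun x : ℝ => g (circleMap 0 1 x)) hcont M hM k hk
  have hca : ca g = (2 * Real.pi)⁻¹ * ∫ x in (0 : ℝ)..(2 * Real.pi), g (circleMap 0 1 x) := by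
    unfold ca
    rw [Real.circleAverage_def, smul_eq_mul]
  have hpt : ∀ j : ℕ, Complex.exp (2 * Real.pi * Complex.I * j / k)
      = circleMap 0 1 (2 * Real.pi * j / k) := by
    intro j
    unfold circleMap
    rw [zero_add, Complex.ofReal_one, one_mul]
    congr 1
    push_cast
    ring
  rw [hca]
  simp only [hpt]
  exact h

lemma phi_lip (φ : ℂ → ℂ) (hφ : AnalyticOnNhd ℂ φ (closedBall 0 1)) :
    ∃ M : ℝ, 0 < M ∧ ∀ x y : ℝ, ‖φ (circleMap 0 1 x) - φ (circleMap 0 1 y)‖ ≤ M * |x - y| := by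
  have hd : ContinuousOn (deriv φ) (closedBall 0 1) := hφ.deriv.continuousOn
  obtain ⟨M, hM⟩ := (isCompact_closedBall (0 : ℂ) 1).exists_bound_of_continuousOn hd
  refine ⟨max M 1, lt_of_lt_of_le one_pos (le_max_right _ _), fun x y => ?_⟩
  have hmem : ∀ x : ℝ, circleMap 0 1 x ∈ closedBall (0 : ℂ) 1 := fun x =>
    circleMap_mem_closedBall 0 zero_le_one x
  have h1 : ‖φ (circleMap 0 1 x) - φ (circleMap 0 1 y)‖
      ≤ max M 1 * ‖circleMap 0 1 x - circleMap 0 1 y‖ := by
    refine Convex.norm_image_sub_le_of_norm_deriv_le (s := closedBall (0 : ℂ) 1)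
      (fun z hz => (hφ z hz).differentiableAt) (fun z hz => le_trans (hM z hz) (le_max_left _ _))
      (convex_closedBall 0 1) (hmem y) (hmem x)
  have h2 : ‖circleMap 0 1 x - circleMap 0 1 y‖ ≤ |x - y| := by
    have h := (lipschitzWith_circleMap (0 : ℂ) 1).dist_le_mul x y
    rw [dist_eq_norm, Real.dist_eq] at h
    simpa using h
  exact le_trans h1 (mul_le_mul_of_nonneg_left h2 (le_trans zero_le_one (le_max_right _ _)))

lemma log_lip (t a b : ℝ) (ht : 0 < t) (ha : t ≤ a) (hb : t ≤ b) :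
    |Real.log a - Real.log b| ≤ |a - b| / t := by
  have key : ∀ a b : ℝ, t ≤ a → t ≤ b → Real.log a - Real.log b ≤ |a - b| / t := by
    intro a b ha hb
    have ha0 : 0 < a := lt_of_lt_of_le ht ha
    have hb0 : 0 < b := lt_of_lt_of_le ht hb
    rw [← Real.log_div ha0.ne' hb0.ne']
    have h1 := Real.log_le_sub_one_of_pos (div_pos ha0 hb0)
    have h2 : a / b - 1 = (a - b) / b := by field_simp
    rw [h2] at h1
    refine le_trans h1 ?_
    calc (a - b) / b ≤ |a - b| / b := div_le_div_of_nonneg_right (le_abs_self _) hb0.le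
      _ ≤ |a - b| / t := div_le_div_of_nonneg_left (abs_nonneg _) ht hb
  rw [abs_le]
  constructor
  · have h := key b a hb ha
    rw [abs_sub_comm] at h
    linarith
  · exact key a b ha hb

lemma max_lip (t a b : ℝ) : |max a t - max b t| ≤ |a - b| := abs_max_sub_max_le_abs a b t

lemma logmax_lip (t : ℝ) (ht : 0 < t) (z u v : ℂ) :
    |Real.log (max ‖z - u‖ t) - Real.log (max ‖z - v‖ t)| ≤ ‖u - v‖ / t := by
  refine le_trans (log_lip t _ _ ht (le_max_right _ _) (le_max_right _ _)) ?_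
  refine div_le_div_of_nonneg_right ?_ ht.le
  refine le_trans (max_lip _ _ _) ?_
  refine le_trans (abs_norm_sub_norm_le _ _) ?_
  have : z - u - (z - v) = -(u - v) := by ring
  rw [this, norm_neg]

lemma posLog_lip (u v : ℂ) : |Real.posLog ‖u‖ - Real.posLog ‖v‖| ≤ ‖u - v‖ := by
  rw [Real.posLog_eq_log_max_one (norm_nonneg _), Real.posLog_eq_log_max_one (norm_nonneg _),
    max_comm 1, max_comm 1]
  refine le_trans (log_lip 1 _ _ one_pos (le_max_right _ _) (le_max_right _ _)) ?_
  rw [div_one]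
  exact le_trans (max_lip _ _ _) (abs_norm_sub_norm_le _ _)

/-- comparison of the averages of `log ‖f‖` and `log max ‖f‖ t` -/
lemma ca_log_le (f : ℂ → ℂ) (hf : AnalyticOnNhd ℂ f (closedBall 0 1)) (h0 : f 0 ≠ 0) (t : ℝ)
    (ht : 0 < t) :
    ca (fun w => Real.log ‖f w‖) ≤ ca (fun w => Real.log (max ‖f w‖ t)) := by
  unfold ca
  have hsph : sphere (0 : ℂ) |1| ⊆ closedBall (0 : ℂ) 1 := by
    rw [abs_one]; exact sphere_subset_closedBall
  have hI1 : CircleIntegrable (fun w => Real.log ‖f w‖) 0 1 := by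
    apply MeromorphicOn.circleIntegrable_log_norm
    intro z hz
    exact (hf z (hsph hz)).meromorphicAt
  have hI2 : CircleIntegrable (fun w => Real.log (max ‖f w‖ t)) 0 1 := by
    apply ContinuousOn.circleIntegrable'
    have hc : ContinuousOn f (sphere (0 : ℂ) |1|) := hf.continuousOn.mono hsph
    refine ContinuousOn.log (ContinuousOn.sup hc.norm continuousOn_const) fun z _ => ?_
    exact (lt_of_lt_of_le ht (le_max_right _ _)).ne'
  set f1 : ℂ → ℝ := fun w => min (Real.log ‖f w‖) (Real.log (max ‖f w‖ t)) with hf1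
  have hcod : f1 =ᶠ[Filter.codiscreteWithin (sphere (0 : ℂ) |1|)] fun w => Real.log ‖f w‖ := by
    have h1 : f ⁻¹' {0}ᶜ ∈ Filter.codiscreteWithin (closedBall (0 : ℂ) 1) := by
      refine hf.preimage_zero_mem_codiscreteWithin (x := 0) h0 (by simp) ?_
      exact ⟨⟨0, by simp⟩, (convex_closedBall (0 : ℂ) 1).isPreconnected⟩
    have h2 := Filter.codiscreteWithin_mono hsph h1
    filter_upwards [h2] with w hw
    have hw' : f w ≠ 0 := hw
    simp only [hf1]
    refine min_eq_left (Real.log_le_log (norm_pos_iff.mpr hw') (le_max_left _ _))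
  have hI3 : CircleIntegrable f1 0 1 := hI1.congr_codiscreteWithin hcod.symm
  rw [← Real.circleAverage_congr_codiscreteWithin hcod one_ne_zero]
  exact Real.circleAverage_mono hI3 hI2 fun w _ => min_le_right _ _

theorem stmt_RSUM (hJEN : Stmt_JEN) : Stmt_RSUM := by
  intro φ hφ t ℓ ht hℓ
  obtain ⟨M, hM0, hM⟩ := phi_lip φ hφ
  obtain ⟨k₀, hk₀⟩ := exists_nat_ge (2 * Real.pi * (M / t) / ℓ + 2 * Real.pi * M / ℓ + 1)
  have hpi := Real.pi_pos
  have hA : 0 < 2 * Real.pi * (M / t) / ℓ := by positivity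
  have hB : 0 < 2 * Real.pi * M / ℓ := by positivity
  refine ⟨k₀, ?_, fun k hk => ?_⟩
  · have : (1 : ℝ) ≤ k₀ := by linarith
    exact_mod_cast this
  have hkr : (k₀ : ℝ) ≤ k := by exact_mod_cast hk
  have hk1 : 1 ≤ k := by
    have : (1 : ℝ) ≤ k := by linarith
    exact_mod_cast this
  have hkA : 2 * Real.pi * (M / t) ≤ ℓ * k := by
    have h : 2 * Real.pi * (M / t) / ℓ ≤ k := by linarith
    rw [div_le_iff₀ hℓ] at h
    linarith
  have hkB : 2 * Real.pi * M ≤ ℓ * k := by
    have h : 2 * Real.pi * M / ℓ ≤ k := by linarith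
    rw [div_le_iff₀ hℓ] at h
    linarith
  have hR : ∀ z : ℂ, (k : ℝ) * ca (fun w => Real.log (max ‖z - φ w‖ t))
      ≤ (∑ j ∈ Finset.range k, Real.log (max ‖z - bp φ k j‖ t)) + ℓ * k := by
    intro z
    have h := riemann_ca (fun w => Real.log (max ‖z - φ w‖ t)) (M / t) (fun x y => by
      refine le_trans (logmax_lip t ht z _ _) ?_
      refine le_trans (div_le_div_of_nonneg_right (hM x y) ht.le) (le_of_eq ?_)
      ring) k hk1
    have h2 := (abs_le.mp h).2
    unfold bp
    linarith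
  have hprod : ∀ z : ℂ, Real.exp (ℓ * k) * ∏ j ∈ Finset.range k, max ‖z - bp φ k j‖ t
      = Real.exp ((∑ j ∈ Finset.range k, Real.log (max ‖z - bp φ k j‖ t)) + ℓ * k) := by
    intro z
    rw [Real.exp_add, Real.exp_sum, mul_comm]
    congr 1
    refine Finset.prod_congr rfl fun j _ => ?_
    rw [Real.exp_log (lt_of_lt_of_le ht (le_max_right _ _))]
  have hz0 : ∀ z : ℂ, AnalyticOnNhd ℂ (fun w => z - φ w) (closedBall 0 1) := fun z =>
    analyticOnNhd_const.sub hφ
  refine ⟨fun z => ?_, fun w₀ hw0 hw1 hφw => ?_, ?_⟩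
  · by_cases hz : z - φ 0 = 0
    · rw [hz, norm_zero, zero_pow (by omega)]
      rw [hprod]
      exact (Real.exp_pos _).le
    · have hJ := (hJEN (fun w => z - φ w) (hz0 z) hz).1
      have hc := ca_log_le (fun w => z - φ w) (hz0 z) hz t ht
      rw [hprod]
      have hpos : 0 < ‖z - φ 0‖ := norm_pos_iff.mpr hz
      rw [← Real.exp_log (pow_pos hpos k), Real.log_pow]
      refine Real.exp_le_exp.mpr ?_
      have h1 : (k : ℝ) * Real.log ‖z - φ 0‖
          ≤ k * ca (fun w => Real.log (max ‖z - φ w‖ t)) :=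
        mul_le_mul_of_nonneg_left (le_trans hJ hc) (Nat.cast_nonneg k)
      linarith [hR z]
  · by_cases hz : 1 - φ 0 = 0
    · rw [hz, norm_zero, zero_div, zero_pow (by omega)]
      rw [hprod]
      exact (Real.exp_pos _).le
    · have hJ := (hJEN (fun w => 1 - φ w) (hz0 1) hz).2 w₀ hw0 hw1 (by simp [hφw])
      have hc := ca_log_le (fun w => 1 - φ w) (hz0 1) hz t ht
      rw [hprod]
      have hpos : 0 < ‖1 - φ 0‖ := norm_pos_iff.mpr hz
      have hw0' : 0 < ‖w₀‖ := norm_pos_iff.mpr hw0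
      rw [← Real.exp_log (pow_pos (div_pos hpos hw0') k), Real.log_pow,
        Real.log_div hpos.ne' hw0'.ne']
      refine Real.exp_le_exp.mpr ?_
      rw [Real.log_div one_ne_zero hw0'.ne', Real.log_one] at hJ
      have h1 : (k : ℝ) * (Real.log ‖1 - φ 0‖ - Real.log ‖w₀‖)
          ≤ k * ca (fun w => Real.log (max ‖1 - φ w‖ t)) :=
        mul_le_mul_of_nonneg_left (by linarith) (Nat.cast_nonneg k)
      linarith [hR 1]
  · have h := riemann_ca (fun w => Real.posLog ‖φ w‖) M (fun x y =>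
      le_trans (posLog_lip _ _) (hM x y)) k hk1
    have h2 := (abs_le.mp h).1
    unfold bp
    nlinarith [h2, hkB]

end Pool.Agent.Work.MP_ce2d68_st.helper20
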