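import Mathlib
import Pool.Agent.Work.MP_ce2d68_st.Interface

set_option autoImplicit false

namespace Pool.Agent.Work.MP_ce2d68_st.helper20

open Pool.Agent.Work.MP_ce2d68_st
open Polynomial

lemma ach_mono (θ x y : ℝ) (hxy : x ≤ y) (h : Ach θ x) : Ach θ y := by
  intro ε hε D
  obtain ⟨F, h1, h2, h3⟩ := h ε hε D
  exact ⟨F, h1, h2, by linarith⟩

lemma card_rts_le (P : ℤ[X]) (hP : P.Monic) : (rts P).card ≤ P.natDegree := by
  unfold rts
  refine le_trans (Multiset.toFinset_card_le _) ?_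
  refine le_trans (Polynomial.card_roots' _) ?_
  unfold cp
  rw [hP.natDegree_map]

lemma card_gd_le (c c' : ℝ) (P : ℤ[X]) (hP : P.Monic) : (gd c c' P).card ≤ P.natDegree := by
  refine le_trans ?_ (card_rts_le P hP)
  unfold gd
  exact Finset.card_filter_le _ _

lemma sum_gd_le (c c' : ℝ) (P : ℤ[X]) :
    ∑ a ∈ gd c c' P, Real.log ‖a‖ ≤ (gd c c' P).card * c' := by
  have h : ∀ a ∈ gd c c' P, Real.log ‖a‖ ≤ c' := by
    intro a ha
    unfold gd at ha
    rw [Finset.mem_filter] at ha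
    exact ha.2.2
  refine le_trans (Finset.sum_le_sum h) (le_of_eq ?_)
  rw [Finset.sum_const, nsmul_eq_mul]

lemma half_le_log (η : ℝ) (h0 : 0 < η) (h1 : η < 1) : η / 2 ≤ Real.log (1 + η) := by
  have h2 : Real.log (1 + η) = - Real.log (1 / (1 + η)) := by
    rw [Real.log_div one_ne_zero (by linarith), Real.log_one]; ring
  have h3 := Real.log_le_sub_one_of_pos (x := 1 / (1 + η)) (by positivity)
  have h4 : 1 / (1 + η) - 1 = -(η / (1 + η)) := by
    field_simp
    ring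
  have h5 : η / 2 ≤ η / (1 + η) := div_le_div_of_nonneg_left h0.le (by linarith) (by linarith)
  rw [h4] at h3
  linarith

/-- the numerical part -/
lemma str1_num (K n d v L u δ β η κ₂ s t r ℓ B Λ γ e m : ℝ) (hK : 1 ≤ K) (hd : 2 ≤ d)
    (hn : δ * d ≤ n) (hnd : n ≤ d) (hδ : 0 < δ) (hL : 0 < L) (hβ : 1 ≤ β) (hη : 0 < η)
    (hη1 : η < 1) (hu : u * β = η * L) (hu0 : 0 < u) (hv : L ≤ v) (hκ : κ₂ * η ≤ u / 40)
    (ht : 4 * t ≤ u / 160) (hs : s ≤ δ * u / 160) (hr : r ≤ L / 8)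
    (hℓ1 : ℓ ≤ u / 160) (hℓ2 : ℓ * B ≤ δ * u / 80) (hℓ3 : ℓ ≤ 1) (hB : 0 < B)
    (hΛ : Λ * B ≤ δ * u / 80 * d) (hΛd : Λ ≤ d) (hBd : 2 * B ≤ δ * u / 80 * d)
    (hγ : γ = δ * u / 80) (he : K * n * η ≤ 5 * β * e) (he2 : 4 * β * e ≤ K * n * η)
    (he0 : 0 ≤ e) (hm : m ≤ K * (Λ + ℓ * d) + 2) (hm0 : 0 ≤ m) :
    K * (d * v + n * (κ₂ * η + ℓ + 4 * t) + 2 * s * d) + e * (2 * r) + m * B
      ≤ (v - γ) * (K * d + e + m) := by
  have hn0 : 0 ≤ n := by nlinarith
  have hKn : 0 ≤ K * n := by nlinarith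
  have hKd : 0 ≤ K * d := by nlinarith
  -- gain
  have h1 : 3 / 20 * (K * n * u) ≤ L * e - e * (2 * r) := by
    have h2 : e * (2 * r) ≤ e * (L / 4) := by nlinarith
    have h3 : K * n * u * β ≤ 5 * L * e * β := by
      calc K * n * u * β = K * n * η * L := by rw [mul_assoc, hu]; ring
        _ ≤ 5 * β * e * L := by nlinarith
        _ = 5 * L * e * β := by ring
    have h4 : K * n * u ≤ 5 * L * e := le_of_mul_le_mul_right h3 (by linarith)
    nlinarith
  -- losses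
  have h2 : K * (n * (κ₂ * η + ℓ + 4 * t)) ≤ 3 / 80 * (K * n * u) := by
    have : κ₂ * η + ℓ + 4 * t ≤ 3 / 80 * u := by linarith
    have h := mul_le_mul_of_nonneg_left this hKn
    nlinarith
  have hdn : K * (δ * d) * u ≤ K * n * u := by
    refine mul_le_mul_of_nonneg_right ?_ hu0.le
    exact mul_le_mul_of_nonneg_left hn (by linarith)
  have h3 : K * (2 * s * d) ≤ 1 / 80 * (K * n * u) := by
    have h : K * d * (2 * s) ≤ K * d * (δ * u / 80) := mul_le_mul_of_nonneg_left (by linarith) hKd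
    nlinarith
  have h4 : m * B ≤ 3 / 80 * (K * n * u) := by
    have h5 : m * B ≤ (K * (Λ + ℓ * d) + 2) * B := mul_le_mul_of_nonneg_right hm hB.le
    have h6 : K * (Λ * B) ≤ K * (δ * u / 80 * d) := mul_le_mul_of_nonneg_left hΛ (by linarith)
    have h7 : K * d * (ℓ * B) ≤ K * d * (δ * u / 80) := mul_le_mul_of_nonneg_left hℓ2 hKd
    have h8 : 2 * B ≤ K * (δ * u / 80 * d) := by
      have h9 : 0 ≤ δ * u / 80 * d := by positivity
      nlinarith
    nlinarith
  -- denominator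
  have h5 : K * d + e + m ≤ 5 * (K * d) := by
    have h6 : e ≤ K * d := by
      have h7 : 4 * β * e ≤ K * d := by
        refine le_trans he2 ?_
        calc K * n * η ≤ K * n * 1 := mul_le_mul_of_nonneg_left hη1.le hKn
          _ ≤ K * d := by rw [mul_one]; exact mul_le_mul_of_nonneg_left hnd (by linarith)
      nlinarith
    have h7 : K * (Λ + ℓ * d) ≤ K * (2 * d) := by
      refine mul_le_mul_of_nonneg_left ?_ (by linarith)
      nlinarith
    have h8 : 2 ≤ K * d := by nlinarith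
    linarith
  have h6 : γ * (K * d + e + m) ≤ 1 / 16 * (K * n * u) := by
    have hγ0 : 0 ≤ γ := by rw [hγ]; positivity
    refine le_trans (mul_le_mul_of_nonneg_left h5 hγ0) ?_
    rw [hγ]
    nlinarith
  have h7 : L * e ≤ v * e := mul_le_mul_of_nonneg_right hv he0
  have h8 : 0 ≤ v * m := mul_nonneg (by linarith) hm0
  nlinarith [h1, h2, h3, h4, h6, h7, h8, mul_nonneg hKn hu0.le]

theorem stmt_STR1 (hST1A : Stmt_ST1A) : Stmt_STR1 := by
  intro θ θ' L c' hθ hθθ' hθ'π hL hL1 hc'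
  obtain ⟨s₀, b, hs₀, hs₀16, hb, H1⟩ :=
    hST1A θ θ' (L / 3) c' hθ hθθ' hθ'π (by positivity) (by linarith)
  set r : ℝ := min s₀ (L / 8) with hr
  have hr0 : 0 < r := lt_min hs₀ (by positivity)
  have hrs : r ≤ s₀ := min_le_left _ _
  have hrL : r ≤ L / 8 := min_le_right _ _
  set β : ℝ := Real.log (1 / r) with hβ
  have hβ1 : 1 ≤ β := by
    rw [hβ, Real.le_log_iff_exp_le (by positivity)]
    have h1 : Real.exp 1 < 8 := lt_trans Real.exp_one_lt_d9 (by norm_num)
    have h2 : (8 : ℝ) ≤ 1 / r := by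
      rw [le_div_iff₀ hr0]
      linarith
    linarith
  have hβ0 : 0 < β := by linarith
  obtain ⟨η, hη0, hη1, H2⟩ := H1 (L / (40 * β)) (by positivity)
  set u : ℝ := η * L / β with hu
  have hu0 : 0 < u := by positivity
  have huβ : u * β = η * L := by rw [hu]; field_simp
  set δ : ℝ := L / (3 * c') with hδ
  have hδ0 : 0 < δ := by positivity
  set t : ℝ := min s₀ (u / 640) with ht
  have ht0 : 0 < t := lt_min hs₀ (by positivity)
  set s : ℝ := min s₀ (δ * u / 160) with hs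
  have hs0 : 0 < s := lt_min hs₀ (by positivity)
  obtain ⟨σ₀, hσ₀, hσ₁, H3⟩ := H2 s t r hs0 (min_le_left _ _) ht0 (min_le_left _ _) hr0 hrs
  set B : ℝ := Real.log (2 * b) with hB
  have hB0 : 0 < B := Real.log_pos (by linarith)
  set Λ : ℝ := Real.log (1 / σ₀) with hΛ
  have hΛ0 : 0 < Λ := Real.log_pos (by rw [lt_div_iff₀ hσ₀]; linarith)
  set ℓ : ℝ := min (η / 4) (min (u / 160) (δ * u / (80 * B))) with hℓ
  have hℓ0 : 0 < ℓ := lt_min (by positivity) (lt_min (by positivity) (by positivity))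
  have hℓη : ℓ ≤ η / 4 := min_le_left _ _
  have hℓu : ℓ ≤ u / 160 := le_trans (min_le_right _ _) (min_le_left _ _)
  have hℓB : ℓ * B ≤ δ * u / 80 := by
    have h : ℓ ≤ δ * u / (80 * B) := le_trans (min_le_right _ _) (min_le_right _ _)
    calc ℓ * B ≤ δ * u / (80 * B) * B := mul_le_mul_of_nonneg_right h hB0.le
      _ = δ * u / 80 := by field_simp
  obtain ⟨D, hD⟩ := exists_nat_ge (Λ * B / (δ * u / 80) + 2 * B / (δ * u / 80) + Λ + 2)
  refine ⟨δ * u / 80, by positivity, D, fun P hP hPD hv hsum => ?_⟩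
  set d : ℝ := (P.natDegree : ℝ) with hd
  have hDd : (D : ℝ) ≤ d := by rw [hd]; exact_mod_cast hPD
  have hq1 : 0 < Λ * B / (δ * u / 80) := by positivity
  have hq2 : 0 < 2 * B / (δ * u / 80) := by positivity
  have hd2 : 2 ≤ d := by linarith
  have hΛd : Λ ≤ d := by linarith
  have hΛB : Λ * B ≤ δ * u / 80 * d := by
    have h : Λ * B / (δ * u / 80) ≤ d := by linarith
    rw [div_le_iff₀ (by positivity)] at h
    linarith
  have hBd : 2 * B ≤ δ * u / 80 * d := by
    have h : 2 * B / (δ * u / 80) ≤ d := by linarith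
    rw [div_le_iff₀ (by positivity)] at h
    linarith
  set n : ℝ := ((gd (L / 3) c' P).card : ℝ) with hn
  have hnd : n ≤ d := by
    rw [hn, hd]
    exact_mod_cast card_gd_le (L / 3) c' P hP.1
  have hnδ : δ * d ≤ n := by
    have h := le_trans hsum (sum_gd_le (L / 3) c' P)
    have hc0 : 0 < c' := by linarith
    rw [hδ, div_mul_eq_mul_div, div_le_iff₀ (by positivity)]
    linarith
  have hn0 : 0 < n := lt_of_lt_of_le (by positivity) hnδ
  obtain ⟨k₀, hk₀, H4⟩ := H3 P hP ℓ hℓ0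
  obtain ⟨k₁, hk₁⟩ := exists_nat_ge (20 * β / (n * η))
  set k : ℕ := max k₀ k₁ with hk
  have hkk₀ : k₀ ≤ k := le_max_left _ _
  have hk1 : (1 : ℝ) ≤ k := by exact_mod_cast le_trans hk₀ hkk₀
  have hkbig : 20 * β ≤ k * n * η := by
    have h : (k₁ : ℝ) ≤ k := by exact_mod_cast le_max_right k₀ k₁
    have h2 : 20 * β / (n * η) ≤ k := le_trans hk₁ h
    rw [div_le_iff₀ (by positivity)] at h2
    linarith
  set e : ℕ := ⌊(k : ℝ) * n * η / (4 * β)⌋₊ with he
  have he_le : (e : ℝ) ≤ (k : ℝ) * n * η / (4 * β) := Nat.floor_le (by positivity)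
  have he_ge : (k : ℝ) * n * η / (4 * β) - 1 < e := by
    have := Nat.lt_floor_add_one ((k : ℝ) * n * η / (4 * β))
    linarith
  have he2 : 4 * β * e ≤ k * n * η := by
    rw [le_div_iff₀ (by positivity)] at he_le
    linarith
  have he1 : k * n * η ≤ 5 * β * e := by
    have h : (k : ℝ) * n * η / (4 * β) - 1 ≥ k * n * η / (5 * β) := by
      have h1 : (k : ℝ) * n * η / (4 * β) - 1 - k * n * η / (5 * β)
          = (k * n * η - 20 * β) / (20 * β) := by
        field_simp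
        ring
      have h2 : 0 ≤ (k * n * η - 20 * β) / (20 * β) := div_nonneg (by linarith) (by positivity)
      linarith
    have h3 : (k : ℝ) * n * η / (5 * β) ≤ e := by linarith
    rw [div_le_iff₀ (by positivity)] at h3
    linarith
  have hlog10 : 1 ≤ Real.log 10 := by
    rw [Real.le_log_iff_exp_le (by norm_num)]
    exact le_trans Real.exp_one_lt_d9.le (by norm_num)
  set m : ℕ := ⌈((k : ℝ) * (Λ + ℓ * d) + 1) / Real.log 10⌉₊ with hm
  have hm_ge : ((k : ℝ) * (Λ + ℓ * d) + 1) / Real.log 10 ≤ m := Nat.le_ceil _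
  have hkΛ : 0 ≤ (k : ℝ) * (Λ + ℓ * d) + 1 := by positivity
  have hm_le : (m : ℝ) ≤ (k : ℝ) * (Λ + ℓ * d) + 2 := by
    have h := Nat.ceil_lt_add_one (a := ((k : ℝ) * (Λ + ℓ * d) + 1) / Real.log 10)
      (by positivity)
    have h2 : ((k : ℝ) * (Λ + ℓ * d) + 1) / Real.log 10 ≤ (k : ℝ) * (Λ + ℓ * d) + 1 :=
      div_le_self hkΛ hlog10
    linarith
  have hA := H4 k e m hkk₀ (by
    have h1 := half_le_log η hη0 hη1
    have h2 : η / 4 ≤ Real.log (1 + η) - ℓ := by linarith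
    have h3 : (k : ℝ) * n * (η / 4) ≤ k * n * (Real.log (1 + η) - ℓ) :=
      mul_le_mul_of_nonneg_left h2 (by positivity)
    calc (e : ℝ) * β ≤ k * n * (η / 4) := by linarith
      _ ≤ _ := h3) (by
    rw [div_le_iff₀ (by linarith)] at hm_ge
    exact hm_ge)
  refine ach_mono θ' _ _ ?_ hA
  have hden : ((k * P.natDegree + e + m : ℕ) : ℝ) = k * d + e + m := by
    push_cast
    rw [hd]
  rw [hden]
  have hden0 : 0 < (k : ℝ) * d + e + m := by positivity
  rw [div_le_iff₀ hden0]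
  exact str1_num k n d (lv P) L u δ β η (L / (40 * β)) s t r ℓ B Λ (δ * u / 80) e m hk1 hd2
    hnδ hnd hδ0 hL hβ1 hη0 hη1 huβ hu0 hv (by rw [hu]; apply le_of_eq; field_simp)
    (by
      have h : t ≤ u / 640 := min_le_right _ _
      linarith)
    (min_le_right _ _) hrL hℓu hℓB (by linarith) hB0 hΛB hΛd hBd rfl he1 he2 (Nat.cast_nonneg _)
    hm_le (Nat.cast_nonneg _)

end Pool.Agent.Work.MP_ce2d68_st.helper20
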